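import Pool.Agent.H886R2.Eps.Upper
import Pool.Agent.H886R2.Eps.Lower

/-!
# Shortest epsilon-dense curves on convex surfaces

For the boundary `S` of every convex body in Euclidean three-space, of surface area `A`, the infimum
`L(ε)` of the lengths of the `ε`-dense rectifiable curves in `S` satisfies `ε L(ε) → A / 2` as
`ε → 0+`.
-/

set_option autoImplicit false

open MeasureTheory Set Metric Filter Topology
open scoped ENNReal

namespace Pool.Agent.Results.MP_523900_gt.ShortestDenseCurves

open Pool.Agent.H886R2.Eps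

variable {K : Set E3}

lemma area_pos (hK : IsConvexBody K) : 0 < areaM (frontier K) := by
  obtain ⟨c, r, hc, hr, hch⟩ := hK.exists_chart
  obtain ⟨x, hx⟩ := hK.frontier_nonempty
  obtain ⟨e, he⟩ := hch x hx
  obtain ⟨F⟩ := exists_frame e he.norm_e
  have h1 : (fun z : ℂ => (-F.p x) + z) ⁻¹' ball 0 (r / (1 + c⁻¹)) ⊆ F.p '' frontier K := by
    intro q hq
    rw [mem_preimage, mem_ball_zero_iff, lt_div_iff₀ (by positivity)] at hq
    obtain ⟨y, hy, -, hyq⟩ := he.surj hK F hq
    refine ⟨y, hy, ?_⟩
    rw [map_sub] at hyq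
    linear_combination hyq
  refine lt_of_lt_of_le ?_ ((measure_mono h1).trans (volume_proj_le F _))
  rw [measure_preimage_add]
  exact measure_ball_pos _ _ (by positivity)

lemma minLength_le {S : Set E3} {ε : ℝ} {c : ℝ → E3} (h : IsDenseCurve S ε c) :
    minLength S ε ≤ eVariationOn c (Icc 0 1) := iInf₂_le c h

/-- For every convex body `K` in Euclidean three-space with boundary `S` and surface area `A`: the
area is positive and finite, the infimum `L(ε)` of the lengths of the `ε`-dense rectifiable curves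
in `S` is finite for every `ε > 0`, and `ε L(ε) → A / 2`, i.e. `L(ε) = A / (2 ε) + o(1 / ε)`, as
`ε → 0+`. -/
theorem result (K : Set E3) (hK : IsConvexBody K) :
    0 < area (frontier K) ∧ area (frontier K) < ⊤ ∧
    (∀ ε : ℝ, 0 < ε → minLength (frontier K) ε < ⊤) ∧
    Tendsto (fun ε : ℝ => ε * (minLength (frontier K) ε).toReal) (𝓝[>] 0)
      (𝓝 ((area (frontier K)).toReal / 2)) ∧
    (fun ε : ℝ => (minLength (frontier K) ε).toReal - (area (frontier K)).toReal / 2 * ε⁻¹)
      =o[𝓝[>] (0 : ℝ)] fun ε : ℝ => ε⁻¹ := by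
  have hfin : ∀ ε : ℝ, 0 < ε → minLength (frontier K) ε < ⊤ := by
    intro ε hε
    obtain ⟨ε₀, hε₀, h⟩ := upper hK one_pos
    obtain ⟨c, hc, hc'⟩ := h (min ε (ε₀ / 2)) (by positivity)
      ((min_le_right _ _).trans_lt (by linarith))
    have hc2 : IsDenseCurve (frontier K) ε c :=
      ⟨hc.continuous, hc.mapsTo, hc.rectifiable, fun x hx => by
        obtain ⟨t, ht, htx⟩ := hc.dense x hx
        exact ⟨t, ht, htx.trans (ENNReal.ofReal_le_ofReal (min_le_left _ _))⟩⟩
    exact (minLength_le hc2).trans_lt (hc'.trans_lt ENNReal.ofReal_lt_top)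
  have hlim : Tendsto (fun ε : ℝ => ε * (minLength (frontier K) ε).toReal) (𝓝[>] 0)
      (𝓝 ((area (frontier K)).toReal / 2)) := by
    rw [area_eq]
    set A := (areaM (frontier K)).toReal with hA
    rw [Metric.tendsto_nhds]
    intro θ hθ
    obtain ⟨ε₁, hε₁, h₁⟩ := lower hK (half_pos hθ)
    obtain ⟨ε₂, hε₂, h₂⟩ := upper hK (half_pos hθ)
    have hmem : Ioo (0 : ℝ) (min ε₁ ε₂) ∈ 𝓝[>] (0 : ℝ) :=
      Ioo_mem_nhdsGT (lt_min hε₁ hε₂)
    filter_upwards [hmem] with ε hε
    have hε0 : 0 < ε := hε.1
    obtain ⟨c, hc, hc'⟩ := h₂ ε hε0 (hε.2.trans_le (min_le_right _ _))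
    have hA0 : 0 ≤ A := ENNReal.toReal_nonneg
    have hup : ε * (minLength (frontier K) ε).toReal ≤ A / 2 + θ / 2 := by
      have h3 := ENNReal.toReal_mono ENNReal.ofReal_ne_top ((minLength_le hc).trans hc')
      rw [ENNReal.toReal_ofReal (by positivity), le_div_iff₀ hε0] at h3
      linarith
    have hlow : A / 2 - θ / 2 ≤ ε * (minLength (frontier K) ε).toReal := by
      have h3 : ENNReal.ofReal ((A / 2 - θ / 2) / ε) ≤ minLength (frontier K) ε := by
        unfold minLength
        refine le_iInf₂ fun c' hcd => ?_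
        have h4 := h₁ ε hε0 (hε.2.trans_le (min_le_left _ _)) c' hcd
        rw [← ENNReal.ofReal_toReal hcd.rectifiable]
        apply ENNReal.ofReal_le_ofReal
        rw [div_le_iff₀ hε0]
        linarith
      have h5 := ENNReal.toReal_mono (hfin ε hε0).ne h3
      have h6 : (A / 2 - θ / 2) / ε ≤ (minLength (frontier K) ε).toReal := by
        refine le_trans ?_ h5
        rw [ENNReal.toReal_ofReal']
        exact le_max_left _ _
      rw [div_le_iff₀ hε0] at h6
      linarith
    rw [Real.dist_eq, abs_lt]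
    constructor <;> linarith
  refine ⟨?_, ?_, hfin, hlim, ?_⟩
  · rw [area_eq]
    exact area_pos hK
  · rw [area_eq]
    exact hK.area_lt_top
  · rw [Asymptotics.isLittleO_iff_tendsto' (by
      filter_upwards [self_mem_nhdsWithin] with ε hε h0
      have : (0 : ℝ) < ε := hε
      exact absurd h0 (by positivity))]
    have h1 : Tendsto (fun ε : ℝ => ε * (minLength (frontier K) ε).toReal -
        (area (frontier K)).toReal / 2) (𝓝[>] 0) (𝓝 0) := by
      simpa using hlim.sub_const ((area (frontier K)).toReal / 2)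
    refine h1.congr' ?_
    filter_upwards [self_mem_nhdsWithin] with ε hε
    have : (0 : ℝ) < ε := hε
    field_simp

end Pool.Agent.Results.MP_523900_gt.ShortestDenseCurves
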